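import Pool.Agent.Q19.HO.Fin2

/-!
# Automorphism groups of the algebras of Hermitian and skew-Hermitian octonion matrices

`K` is a field in which `2` and `3` are not zero, `Oct K` the split octonions (vector matrices of Zorn),
`HP n K` and `HM n K` the spaces of the Hermitian and of the skew-Hermitian `n × n` matrices over `Oct K`,
`jordan` the product `(XY + YX)/2`, `G2 K` the automorphism group of `Oct K`, `AP n K` and `AM n K` the
automorphism groups of `(HP n K, ∘)` and `(HM n K, [,])`, `GO n K` the group of the invertible `g` over `K`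
with `gᵀ g` scalar, `SO n K` the special orthogonal group of `∑ xᵢ²`. `DescP n K`, `DescM n K`: the map
`G2 K × GO n K → AP n K` (`AM n K`), `(t, g) ↦ (X ↦ g t(X) g⁻¹)`, is a surjective homomorphism with kernel
`1 × K*`. `IsoP n K`, `IsoM n K`: `AP n K` (`AM n K`) is isomorphic to `G2 K × SO n K`.
-/

set_option autoImplicit false

namespace Pool.Agent.Results.MP_93b5ed_al.AutomorphismGroups

open Pool.Agent.Q19.HO

theorem result (K : Type) [Field K] (h2 : (2 : K) ≠ 0) (h3 : (3 : K) ≠ 0) :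
    -- Hermitian matrices, `n ≥ 4`: the automorphism group is `G₂ × (GO(n)/K*)`
    (∀ n, 4 ≤ n → DescP n K) ∧
    -- skew-Hermitian matrices, `n ≥ 1`: the automorphism group is `G₂ × (GO(n)/K*)`
    (∀ n, 1 ≤ n → DescM n K) ∧
    -- comparison with `G₂ × SO(n)`
    (∀ n, 4 ≤ n → (IsoP n K ↔ Odd n)) ∧ (∀ n, 1 ≤ n → (IsoM n K ↔ Odd n)) ∧
    -- Hermitian matrices, `n = 1`
    (∀ f : AP 1 K, f = 1) ∧ ¬ IsoP 1 K ∧
    -- Hermitian matrices, `n = 2`: the stabiliser of `1` in the orthogonal group of the determinant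
    (∀ f : HP 2 K ≃ₗ[K] HP 2 K, IsHom K jordan f ↔
      (∀ X : HP 2 K, X.mat = 1 → f X = X) ∧ ∀ X : HP 2 K, det2 (f X).mat = det2 X.mat) ∧
    ¬ IsoP 2 K :=
  Pool.Agent.Q19.HO.main2 K h2 h3

end Pool.Agent.Results.MP_93b5ed_al.AutomorphismGroups
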